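import Mathlib

/-!
# Derivations of a free group with values in `ℤ⟦X⟧`

A homomorphism `c : H → ℤ` makes `ℤ⟦X⟧` a module over `H`, where `h` acts as multiplication by
`(1 + X) ^ c h`. For a free group `H` every homomorphism `g : H → ℤ` is the constant term of a
derivation. This gives homomorphisms on `ker c` with prescribed values.
-/

set_option autoImplicit false

namespace Pool.Agent.RelGapTower

open PowerSeries

/-- the power series `1 + X` -/
noncomputable def T0 : PowerSeries ℤ := 1 + X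

theorem T0_isUnit : IsUnit T0 := by
  unfold T0
  rw [PowerSeries.isUnit_iff_constantCoeff]
  simp

/-- the unit `1 + X` of `ℤ⟦X⟧` -/
noncomputable def T : (PowerSeries ℤ)ˣ := T0_isUnit.unit

theorem T_val : (T : PowerSeries ℤ) = T0 := T0_isUnit.unit_spec

theorem coeff_T0_pow (n k : ℕ) : coeff k (T0 ^ n) = (n.choose k : ℤ) := by
  have h : T0 ^ n = ((1 + Polynomial.X) ^ n : Polynomial ℤ) := by
    unfold T0; simp
  rw [h, Polynomial.coeff_coe, Polynomial.coeff_one_add_X_pow]

/-- an additive functional with prescribed values at `1, 1 + X, …, (1 + X) ^ N` -/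
theorem exists_functional (a : ℕ → ℤ) (N : ℕ) :
    ∃ L : PowerSeries ℤ →+ ℤ, ∀ n ≤ N, L (T0 ^ n) = a n := by
  induction N with
  | zero =>
    refine ⟨(AddMonoidHom.mulLeft (a 0)).comp (coeff 0).toAddMonoidHom, fun n hn => ?_⟩
    obtain rfl : n = 0 := by omega
    simp
  | succ N ih =>
    obtain ⟨L, hL⟩ := ih
    refine ⟨L + (AddMonoidHom.mulLeft (a (N + 1) - L (T0 ^ (N + 1)))).comp
      (coeff (N + 1)).toAddMonoidHom, fun n hn => ?_⟩
    have h1 : (L + (AddMonoidHom.mulLeft (a (N + 1) - L (T0 ^ (N + 1)))).comp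
      (coeff (N + 1)).toAddMonoidHom) (T0 ^ n) =
        L (T0 ^ n) + (a (N + 1) - L (T0 ^ (N + 1))) * coeff (N + 1) (T0 ^ n) := rfl
    rw [h1, coeff_T0_pow]
    rcases Nat.lt_or_ge n (N + 1) with h | h
    · rw [Nat.choose_eq_zero_of_lt h, hL n (by omega)]
      simp
    · obtain rfl : n = N + 1 := by omega
      simp

/-- an additive functional with prescribed values at finitely many integral powers of `1 + X` -/
theorem exists_functional_int (S : Finset ℤ) (a : ℤ → ℤ) :
    ∃ L : PowerSeries ℤ →+ ℤ, ∀ y ∈ S, L ((T ^ y : (PowerSeries ℤ)ˣ) : PowerSeries ℤ) = a y := by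
  obtain ⟨M, hM⟩ : ∃ M : ℕ, ∀ y ∈ S, |y| ≤ M := by
    refine ⟨∑ y ∈ S, y.natAbs, fun y hy => ?_⟩
    have := Finset.single_le_sum (f := fun y : ℤ => y.natAbs) (fun _ _ => Nat.zero_le _) hy
    rw [Int.abs_eq_natAbs]
    exact_mod_cast this
  obtain ⟨L, hL⟩ := exists_functional (fun n => a ((n : ℤ) - M)) (2 * M)
  refine ⟨L.comp (AddMonoidHom.mulLeft ((T ^ (M : ℤ) : (PowerSeries ℤ)ˣ) : PowerSeries ℤ)),
    fun y hy => ?_⟩
  have hy' := abs_le.mp (hM y hy)
  obtain ⟨n, hn⟩ : ∃ n : ℕ, (n : ℤ) = M + y := ⟨((M : ℤ) + y).toNat, by omega⟩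
  have h1 : L.comp (AddMonoidHom.mulLeft ((T ^ (M : ℤ) : (PowerSeries ℤ)ˣ) : PowerSeries ℤ))
      ((T ^ y : (PowerSeries ℤ)ˣ) : PowerSeries ℤ) =
      L (((T ^ (M : ℤ) : (PowerSeries ℤ)ˣ) : PowerSeries ℤ) *
        ((T ^ y : (PowerSeries ℤ)ˣ) : PowerSeries ℤ)) := rfl
  rw [h1, ← Units.val_mul, ← zpow_add, ← hn, zpow_natCast, Units.val_pow_eq_pow_val, T_val,
    hL n (by omega)]
  congr 1
  omega

variable {H : Type} [Group H]

/-- `D` is a derivation over `c : H → ℤ` -/
def IsDer (c : H →* Multiplicative ℤ) (D : H → PowerSeries ℤ) : Prop :=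
  ∀ x y, D (x * y) = D x + ((T ^ (c x).toAdd : (PowerSeries ℤ)ˣ) : PowerSeries ℤ) * D y

theorem IsDer.one {c : H →* Multiplicative ℤ} {D : H → PowerSeries ℤ} (h : IsDer c D) :
    D 1 = 0 := by
  have := h 1 1
  simpa using this

theorem IsDer.conj {c : H →* Multiplicative ℤ} {D : H → PowerSeries ℤ} (h : IsDer c D) (x ρ : H)
    (hρ : c ρ = 1) :
    D (x * ρ * x⁻¹) = ((T ^ (c x).toAdd : (PowerSeries ℤ)ˣ) : PowerSeries ℤ) * D ρ := by
  have h1 : D (x * x⁻¹) = D x + ((T ^ (c x).toAdd : (PowerSeries ℤ)ˣ) : PowerSeries ℤ) * D x⁻¹ :=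
    h x x⁻¹
  rw [mul_inv_cancel, h.one] at h1
  rw [h (x * ρ) x⁻¹, h x ρ, map_mul, hρ, mul_one]
  have h2 : ((T ^ (c x).toAdd : (PowerSeries ℤ)ˣ) : PowerSeries ℤ) * D x⁻¹ = - D x := by
    rw [eq_neg_iff_add_eq_zero, add_comm]; exact h1.symm
  rw [h2]; ring

/-- the constant term of a derivation on a free group can be prescribed -/
theorem exists_der [IsFreeGroup H] (c g : H →* Multiplicative ℤ) :
    ∃ D : H → PowerSeries ℤ, IsDer c D ∧ ∀ x, constantCoeff (D x) = (g x).toAdd := by
  -- affine permutations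
  let A : H → Equiv.Perm (PowerSeries ℤ) := fun x =>
    { toFun := fun f => ((T ^ (c x).toAdd : (PowerSeries ℤ)ˣ) : PowerSeries ℤ) * f + C (g x).toAdd
      invFun := fun f => ((T ^ (-(c x).toAdd) : (PowerSeries ℤ)ˣ) : PowerSeries ℤ) *
        (f - C (g x).toAdd)
      left_inv := fun f => by
        simp only [add_sub_cancel_right]
        rw [← mul_assoc, ← Units.val_mul, ← zpow_add, neg_add_cancel, zpow_zero, Units.val_one,
          one_mul]
      right_inv := fun f => by
        dsimp only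
        rw [← mul_assoc, ← Units.val_mul, ← zpow_add, add_neg_cancel, zpow_zero, Units.val_one,
          one_mul, sub_add_cancel] }
  let Φ : H →* Equiv.Perm (PowerSeries ℤ) := IsFreeGroup.lift fun x => A (IsFreeGroup.of x)
  let S : Subgroup H :=
    { carrier := {h | (∀ f, Φ h f = ((T ^ (c h).toAdd : (PowerSeries ℤ)ˣ) : PowerSeries ℤ) * f +
        Φ h 0) ∧ constantCoeff (Φ h 0) = (g h).toAdd}
      mul_mem' := by
        rintro a b ⟨ha, ha'⟩ ⟨hb, hb'⟩
        have hconst : ∀ n : ℤ, constantCoeff ((T ^ n : (PowerSeries ℤ)ˣ) : PowerSeries ℤ) = 1 := by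
          intro n
          have : Units.map (constantCoeff (R := ℤ)).toMonoidHom T = 1 := by
            ext; simp [T_val, T0]
          have h2 : Units.map (constantCoeff (R := ℤ)).toMonoidHom (T ^ n) = 1 := by
            rw [map_zpow, this, one_zpow]
          exact congrArg Units.val h2
        refine ⟨fun f => ?_, ?_⟩
        · rw [map_mul, Equiv.Perm.mul_apply, Equiv.Perm.mul_apply, ha (Φ b f), ha (Φ b 0), hb f,
            map_mul, toAdd_mul, zpow_add, Units.val_mul]
          ring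
        · rw [map_mul, Equiv.Perm.mul_apply, ha (Φ b 0), map_add, map_mul, hconst, one_mul, hb', ha',
            map_mul, toAdd_mul, add_comm]
      one_mem' := by
        refine ⟨fun f => ?_, ?_⟩
        · simp
        · simp
      inv_mem' := by
        rintro a ⟨ha, ha'⟩
        have hconst : ∀ n : ℤ, constantCoeff ((T ^ n : (PowerSeries ℤ)ˣ) : PowerSeries ℤ) = 1 := by
          intro n
          have : Units.map (constantCoeff (R := ℤ)).toMonoidHom T = 1 := by
            ext; simp [T_val, T0]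
          have h2 : Units.map (constantCoeff (R := ℤ)).toMonoidHom (T ^ n) = 1 := by
            rw [map_zpow, this, one_zpow]
          exact congrArg Units.val h2
        have key : ∀ f, Φ a⁻¹ f = ((T ^ (-(c a).toAdd) : (PowerSeries ℤ)ˣ) : PowerSeries ℤ) *
            (f - Φ a 0) := by
          intro f
          rw [map_inv, Equiv.Perm.inv_eq_iff_eq, ha, ← mul_assoc, ← Units.val_mul, ← zpow_add,
            add_neg_cancel, zpow_zero, Units.val_one, one_mul, sub_add_cancel]
        refine ⟨fun f => ?_, ?_⟩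
        · rw [key f, key 0, map_inv, toAdd_inv]
          ring
        · rw [key 0, map_mul, hconst, one_mul, zero_sub, map_neg, ha', map_inv, toAdd_inv] }
  have hS : ∀ h, h ∈ S := by
    have hgen : ∀ x : IsFreeGroup.Generators H, IsFreeGroup.of x ∈ S := by
      intro x
      have h1 : Φ (IsFreeGroup.of x) = A (IsFreeGroup.of x) := IsFreeGroup.lift_of _ x
      refine ⟨fun f => ?_, ?_⟩
      · rw [h1]
        show _ = _ + (((T ^ (c (IsFreeGroup.of x)).toAdd : (PowerSeries ℤ)ˣ) : PowerSeries ℤ) * 0 +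
          C (g (IsFreeGroup.of x)).toAdd)
        rw [mul_zero, zero_add]
        rfl
      · rw [h1]
        show constantCoeff (((T ^ (c (IsFreeGroup.of x)).toAdd : (PowerSeries ℤ)ˣ) :
          PowerSeries ℤ) * 0 + C (g (IsFreeGroup.of x)).toAdd) = _
        rw [mul_zero, zero_add, constantCoeff_C]
    -- a homomorphism to `S` that is the identity on the basis
    let σ : H →* S := IsFreeGroup.lift fun x => ⟨IsFreeGroup.of x, hgen x⟩
    have hσ : S.subtype.comp σ = MonoidHom.id H := by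
      apply IsFreeGroup.ext_hom
      intro x
      show S.subtype (σ (IsFreeGroup.of x)) = _
      rw [IsFreeGroup.lift_of]
      rfl
    intro h
    have := DFunLike.congr_fun hσ h
    rw [MonoidHom.id_apply] at this
    rw [← this]
    exact (σ h).2
  refine ⟨fun h => Φ h 0, fun x y => ?_, fun x => (hS x).2⟩
  show Φ (x * y) 0 = Φ x 0 + _ * Φ y 0
  rw [map_mul, Equiv.Perm.mul_apply, (hS x).1 (Φ y 0), add_comm]

end Pool.Agent.RelGapTower
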