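import Pool.Agent.RelGapTower.Deriv

/-!
# Homomorphisms on the kernel of `c : H → ℤ` with prescribed values at conjugates
-/

set_option autoImplicit false

namespace Pool.Agent.RelGapTower

open PowerSeries

variable {H : Type} [Group H]

/-- Let `H` be free, `c : H → ℤ` a homomorphism that kills the elements `ρ k`. Suppose that the classes
`κ k` are such that every `ρ k` is conjugate to the element of the representative, by `x k`, and that
the values of homomorphisms `H → ℤ` at the classes can be prescribed. Then the values of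
homomorphisms on `ker c` at the `ρ k` can be prescribed, subject only to the condition that they
agree when `κ k = κ l` and `c (x k) = c (x l)`. -/
theorem key [IsFreeGroup H] (c : H →* Multiplicative ℤ) {K Q : Type} [Fintype K] [Fintype Q]
    [DecidableEq Q] (ρ x : K → H) (κ : K → Q) (rep : Q → K) (hrep : ∀ q, κ (rep q) = q)
    (hρ : ∀ k, c (ρ k) = 1) (hconj : ∀ k, ρ k = x k * ρ (rep (κ k)) * (x k)⁻¹)
    (hE : ∀ q : Q, ∃ g : H →* Multiplicative ℤ,
      ∀ k, g (ρ k) = Multiplicative.ofAdd (if κ k = q then 1 else 0))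
    (a : K → ℤ) (ha : ∀ k l, κ k = κ l → c (x k) = c (x l) → a k = a l) :
    ∃ f : H → ℤ, (∀ y z, c y = 1 → f (y * z) = f y + f z) ∧ ∀ k, f (ρ k) = a k := by
  classical
  choose g hg using hE
  choose D hD hD0 using fun q => exists_der c (g q)
  -- the matrix of values
  let A : Matrix Q Q (PowerSeries ℤ) := Matrix.of fun q q' => D q (ρ (rep q'))
  have hA : A.map (constantCoeff (R := ℤ)) = 1 := by
    ext q q'
    have h1 : (A.map (constantCoeff (R := ℤ))) q q' = constantCoeff (D q (ρ (rep q'))) := rfl
    rw [h1, hD0, hg, toAdd_ofAdd, hrep, Matrix.one_apply]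
    simp only [eq_comm]
  have hdet : IsUnit A.det := by
    rw [PowerSeries.isUnit_iff_constantCoeff]
    have : constantCoeff A.det = (A.map (constantCoeff (R := ℤ))).det :=
      (RingHom.map_det (constantCoeff (R := ℤ)) A)
    rw [this, hA, Matrix.det_one]
    exact isUnit_one
  have hinv : A⁻¹ * A = 1 := Matrix.nonsing_inv_mul A hdet
  let D' : Q → H → PowerSeries ℤ := fun q h => ∑ q'', A⁻¹ q q'' * D q'' h
  have hD' : ∀ q, IsDer c (D' q) := by
    intro q y z
    show ∑ q'', A⁻¹ q q'' * D q'' (y * z) =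
      ∑ q'', A⁻¹ q q'' * D q'' y + _ * ∑ q'', A⁻¹ q q'' * D q'' z
    rw [Finset.mul_sum, ← Finset.sum_add_distrib]
    refine Finset.sum_congr rfl fun q'' _ => ?_
    rw [hD q'' y z]
    ring
  have hval0 : ∀ q q', D' q (ρ (rep q')) = if q = q' then 1 else 0 := by
    intro q q'
    have h1 : D' q (ρ (rep q')) = (A⁻¹ * A) q q' := by
      rw [Matrix.mul_apply]
      rfl
    rw [h1, hinv, Matrix.one_apply]
  have hval : ∀ q k, D' q (ρ k) =
      if κ k = q then ((T ^ (c (x k)).toAdd : (PowerSeries ℤ)ˣ) : PowerSeries ℤ) else 0 := by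
    intro q k
    rw [hconj k, (hD' q).conj _ _ (hρ _), hval0]
    by_cases h : κ k = q
    · rw [if_pos h, if_pos h.symm, mul_one]
    · rw [if_neg h, if_neg (Ne.symm h), mul_zero]
  -- functionals
  let S : Finset ℤ := Finset.univ.image fun k => (c (x k)).toAdd
  let α : Q → ℤ → ℤ := fun q y =>
    if h : ∃ k, κ k = q ∧ (c (x k)).toAdd = y then a h.choose else 0
  choose L hL using fun q => exists_functional_int S (α q)
  refine ⟨fun h => ∑ q, L q (D' q h), fun y z hy => ?_, fun k => ?_⟩
  · show ∑ q, L q (D' q (y * z)) = ∑ q, L q (D' q y) + ∑ q, L q (D' q z)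
    rw [← Finset.sum_add_distrib]
    refine Finset.sum_congr rfl fun q _ => ?_
    rw [hD' q y z, hy, toAdd_one, zpow_zero, Units.val_one, one_mul, map_add]
  · show ∑ q, L q (D' q (ρ k)) = a k
    rw [Finset.sum_eq_single (κ k)]
    · rw [hval, if_pos rfl, hL (κ k) _ (Finset.mem_image_of_mem _ (Finset.mem_univ k))]
      have hex : ∃ k', κ k' = κ k ∧ (c (x k')).toAdd = (c (x k)).toAdd := ⟨k, rfl, rfl⟩
      show (if h : ∃ k', κ k' = κ k ∧ (c (x k')).toAdd = (c (x k)).toAdd then a h.choose else 0) = a k
      rw [dif_pos hex]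
      exact ha _ _ hex.choose_spec.1 (Multiplicative.toAdd.injective hex.choose_spec.2)
    · intro q _ hq
      rw [hval, if_neg (Ne.symm hq), map_zero]
    · intro h
      exact absurd (Finset.mem_univ _) h

end Pool.Agent.RelGapTower
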