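import Pool.Agent.RelGapTower.Key

/-!
# The tower argument in the language of free groups
-/

set_option autoImplicit false

namespace Pool.Agent.RelGapTower

section abelian

variable {H : Type} [Group H]

/-- If the values of homomorphisms to `ℤ` at the classes can be prescribed and a homomorphism to `ℤ`
which kills all `ρ k` is trivial, then the same holds for every abelian group in place of `ℤ`. -/
theorem abelian_trivial [IsFreeGroup H] {K Q : Type} [Fintype Q]
    [DecidableEq Q] (ρ x : K → H) (κ : K → Q) (rep : Q → K)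
    (hconj : ∀ k, ρ k = x k * ρ (rep (κ k)) * (x k)⁻¹)
    (hE : ∀ q : Q, ∃ g : H →* Multiplicative ℤ,
      ∀ k, g (ρ k) = Multiplicative.ofAdd (if κ k = q then 1 else 0))
    (h0 : ∀ c : H →* Multiplicative ℤ, (∀ k, c (ρ k) = 1) → c = 1)
    {B : Type} [CommGroup B] (b : H →* B) (hb : ∀ k, b (ρ k) = 1) : b = 1 := by
  classical
  choose g hg using hE
  -- a lift to a free abelian group
  let c : H →* Multiplicative (B →₀ ℤ) :=
    IsFreeGroup.lift fun y => Multiplicative.ofAdd (Finsupp.single (b (IsFreeGroup.of y)) 1)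
  let π : (B →₀ ℤ) →+ Additive B :=
    Finsupp.liftAddHom fun β => zmultiplesHom (Additive B) (Additive.ofMul β)
  have hπ : (AddMonoidHom.toMultiplicative π).comp c =
      (MulEquiv.multiplicativeAdditive B).symm.toMonoidHom.comp b := by
    apply IsFreeGroup.ext_hom
    intro y
    show AddMonoidHom.toMultiplicative π (c (IsFreeGroup.of y)) = _
    have h1 : c (IsFreeGroup.of y) =
        Multiplicative.ofAdd (Finsupp.single (b (IsFreeGroup.of y)) 1) :=
      IsFreeGroup.lift_of _ y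
    rw [h1]
    show Multiplicative.ofAdd (π (Finsupp.single (b (IsFreeGroup.of y)) 1)) = _
    have h2 : π (Finsupp.single (b (IsFreeGroup.of y)) 1) =
        Additive.ofMul (b (IsFreeGroup.of y)) := by
      show Finsupp.liftAddHom _ _ = _
      rw [Finsupp.liftAddHom_apply_single, zmultiplesHom_apply, one_zsmul]
    rw [h2]
    rfl
  have hπ' : ∀ h, π (c h).toAdd = Additive.ofMul (b h) := by
    intro h
    have := DFunLike.congr_fun hπ h
    exact this
  -- the coordinates
  have hcoord : ∀ (β : B) (h : H), (c h).toAdd β =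
      ∑ q, (g q h).toAdd * (c (ρ (rep q))).toAdd β := by
    intro β h
    let c' : H →* Multiplicative ℤ :=
      { toFun := fun h => Multiplicative.ofAdd
          ((c h).toAdd β - ∑ q, (g q h).toAdd * (c (ρ (rep q))).toAdd β)
        map_one' := by simp
        map_mul' := fun y z => by
          rw [← ofAdd_add]
          congr 1
          simp only [map_mul, toAdd_mul, Finsupp.add_apply, add_mul, Finset.sum_add_distrib]
          ring }
    have hc' : c' = 1 := by
      apply h0
      intro k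
      show Multiplicative.ofAdd ((c (ρ k)).toAdd β -
        ∑ q, (g q (ρ k)).toAdd * (c (ρ (rep q))).toAdd β) = 1
      have h1 : (c (ρ k)).toAdd = (c (ρ (rep (κ k)))).toAdd := by
        conv_lhs => rw [hconj k]
        simp only [map_mul, map_inv, toAdd_mul, toAdd_inv]
        abel
      rw [h1, Finset.sum_eq_single (κ k)]
      · rw [hg, if_pos rfl, toAdd_ofAdd, one_mul, sub_self]
        rfl
      · intro q _ hq
        rw [hg, if_neg (Ne.symm hq), toAdd_ofAdd, zero_mul]
      · intro h; exact absurd (Finset.mem_univ _) h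
    have h2 := DFunLike.congr_fun hc' h
    have h3 : (c h).toAdd β - ∑ q, (g q h).toAdd * (c (ρ (rep q))).toAdd β = 0 :=
      Multiplicative.ofAdd.injective h2
    exact sub_eq_zero.mp h3
  apply MonoidHom.ext
  intro h
  have h1 : (c h).toAdd = ∑ q, (g q h).toAdd • (c (ρ (rep q))).toAdd := by
    ext β
    rw [hcoord β h, Finsupp.finsetSum_apply]
    rfl
  have h2 : Additive.ofMul (b h) = 0 := by
    rw [← hπ' h, h1, map_sum]
    refine Finset.sum_eq_zero fun q _ => ?_
    rw [map_zsmul, hπ', hb]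
    exact zsmul_zero _
  exact Additive.ofMul.injective h2

/-- A homomorphism to a solvable group that kills all `ρ k` is trivial when this is so for abelian
groups. -/
theorem solvable_trivial {K : Type} (ρ : K → H)
    (hab : ∀ (B : Type) [CommGroup B] (b : H →* B), (∀ k, b (ρ k) = 1) → b = 1)
    {S : Type} [Group S] [Group.IsSolvable S] (ψ : H →* S) (hψ : ∀ k, ψ (ρ k) = 1) : ψ = 1 := by
  let p : H →* ψ.range := ψ.rangeRestrict
  have h1 : (Abelianization.of (G := ψ.range)).comp p = 1 := by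
    apply hab
    intro k
    have : p (ρ k) = 1 := Subtype.ext (hψ k)
    rw [MonoidHom.comp_apply, this, map_one]
  have h2 : ∀ y : ψ.range, y ∈ commutator ψ.range := by
    intro y
    obtain ⟨h, hh⟩ := ψ.rangeRestrict_surjective y
    have h3 := DFunLike.congr_fun h1 h
    rw [MonoidHom.comp_apply, show p h = y from hh, MonoidHom.one_apply] at h3
    exact (QuotientGroup.eq_one_iff y).mp h3
  have h3 : Subsingleton ψ.range := by
    by_contra hns
    rw [not_subsingleton_iff_nontrivial] at hns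
    have h4 := Group.IsSolvable.commutator_lt_top_of_nontrivial ψ.range
    exact absurd (top_le_iff.mp fun y _ => h2 y) h4.ne
  apply MonoidHom.ext
  intro h
  have : p h = 1 := Subsingleton.elim _ _
  exact congrArg Subtype.val this

end abelian

section tower

variable {F : Type} [Group F] {ι K : Type}

/-- the subgroup generated by the elements `p * q⁻¹` of `H` with `p, q ∈ P` -/
def hull (P : Finset F) (H : Subgroup F) : Subgroup F :=
  Subgroup.closure {x | (∃ p ∈ P, ∃ q ∈ P, x = p * q⁻¹) ∧ x ∈ H}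

theorem hull_le (P : Finset F) (H : Subgroup F) : hull P H ≤ H :=
  (Subgroup.closure_le H).mpr fun _ hx => hx.2

theorem mem_hull {P : Finset F} {H : Subgroup F} {p q : F} (hp : p ∈ P) (hq : q ∈ P)
    (h : p * q⁻¹ ∈ H) : p * q⁻¹ ∈ hull P H :=
  Subgroup.subset_closure ⟨⟨p, hp, q, hq, rfl⟩, h⟩

theorem hull_hull (P : Finset F) (H : Subgroup F) : hull P (hull P H) = hull P H := by
  apply le_antisymm (hull_le P _)
  apply (Subgroup.closure_le _).mpr
  rintro x ⟨⟨p, hp, q, hq, rfl⟩, hx⟩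
  exact mem_hull hp hq (mem_hull hp hq hx)

theorem hull_fg (P : Finset F) (H : Subgroup F) : (hull P H).FG := by
  classical
  have hfin : {x | (∃ p ∈ P, ∃ q ∈ P, x = p * q⁻¹) ∧ x ∈ H}.Finite := by
    apply Set.Finite.subset ((P ×ˢ P).image fun p => p.1 * p.2⁻¹).finite_toSet
    rintro x ⟨⟨p, hp, q, hq, rfl⟩, -⟩
    rw [Finset.mem_coe]
    exact Finset.mem_image.mpr ⟨(p, q), Finset.mem_product.mpr ⟨hp, hq⟩, rfl⟩
  exact ⟨hfin.toFinset, by rw [Set.Finite.coe_toFinset]; rfl⟩

/-- the conjugates of relators -/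
def rho (r : ι → F) (w : K → F) (i : K → ι) (k : K) : F := w k * r (i k) * (w k)⁻¹

/-- the subgroups of the tower -/
structure Good (P : Finset F) (r : ι → F) (w : K → F) (i : K → ι) (ζ : F) (H : Subgroup F) :
    Prop where
  hull_eq : hull P H = H
  zeta_mem : ζ ∈ H
  rho_mem : ∀ k, rho r w i k ∈ H
  prescribe : ∀ a : K → ℤ, (∀ k l, i k = i l → w k * (w l)⁻¹ ∈ H → a k = a l) →
    ∃ c : H →* Multiplicative ℤ, ∀ k (h : rho r w i k ∈ H),
      c ⟨rho r w i k, h⟩ = Multiplicative.ofAdd (a k)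

/-- the classes of `K` -/
def classes (w : K → F) (i : K → ι) (H : Subgroup F) : Setoid K where
  r k l := i k = i l ∧ w k * (w l)⁻¹ ∈ H
  iseqv :=
    { refl := fun k => ⟨rfl, by rw [mul_inv_cancel]; exact H.one_mem⟩
      symm := fun {k l} h => ⟨h.1.symm, by
        have := H.inv_mem h.2
        rwa [mul_inv_rev, inv_inv] at this⟩
      trans := fun {k l m} h h' => ⟨h.1.trans h'.1, by
        have := H.mul_mem h.2 h'.2
        rwa [mul_assoc, inv_mul_cancel_left] at this⟩ }

theorem rep_rel (w : K → F) (i : K → ι) (H : Subgroup F) (k : K) :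
    i k = i (Quotient.mk (classes w i H) k).out ∧
      w k * (w (Quotient.mk (classes w i H) k).out)⁻¹ ∈ H :=
  Setoid.symm' (classes w i H) (Quotient.mk_out (s := classes w i H) k)

variable [Fintype K] {P : Finset F} {r : ι → F} {w : K → F} {i : K → ι} {ζ : F} {H : Subgroup F}

/-- the data of `key` and `abelian_trivial` for a good subgroup -/
theorem Good.data (hH : Good P r w i ζ H) :
    ∃ (Q : Type) (_ : Fintype Q) (_ : DecidableEq Q) (x : K → H) (κ : K → Q) (rep : Q → K),
      (∀ q, κ (rep q) = q) ∧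
      (∀ k, (⟨rho r w i k, hH.rho_mem k⟩ : H) =
        x k * ⟨rho r w i (rep (κ k)), hH.rho_mem _⟩ * (x k)⁻¹) ∧
      (∀ q : Q, ∃ g : H →* Multiplicative ℤ, ∀ k, g ⟨rho r w i k, hH.rho_mem k⟩ =
        Multiplicative.ofAdd (if κ k = q then 1 else 0)) ∧
      (∀ k l, κ k = κ l → i k = i l ∧ ((x k * (x l)⁻¹ : H) : F) = w k * (w l)⁻¹) := by
  classical
  let s := classes w i H
  refine ⟨Quotient s, inferInstance, inferInstance,
    fun k => ⟨w k * (w (Quotient.mk s k).out)⁻¹, (rep_rel w i H k).2⟩,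
    Quotient.mk s, Quotient.out, fun q => Quotient.out_eq q, fun k => ?_, fun q => ?_,
    fun k l h => ⟨?_, ?_⟩⟩
  · apply Subtype.ext
    show w k * r (i k) * (w k)⁻¹ = w k * (w (Quotient.mk s k).out)⁻¹ *
      (w (Quotient.mk s k).out * r (i (Quotient.mk s k).out) * (w (Quotient.mk s k).out)⁻¹) *
      (w k * (w (Quotient.mk s k).out)⁻¹)⁻¹
    rw [← (rep_rel w i H k).1]
    group
  · obtain ⟨g, hg⟩ := hH.prescribe (fun k => if Quotient.mk s k = q then 1 else 0) (by
      intro k l h1 h2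
      have : Quotient.mk s k = Quotient.mk s l := Quotient.sound ⟨h1, h2⟩
      simp only [this])
    exact ⟨g, fun k => hg k _⟩
  · exact (Quotient.exact h).1
  · show w k * (w (Quotient.mk s k).out)⁻¹ * (w l * (w (Quotient.mk s l).out)⁻¹)⁻¹ = _
    rw [h]
    group

/-- one step down the tower -/
theorem Good.step [IsFreeGroup F] (hP1 : (1 : F) ∈ P) (hPζ : ζ ∈ P) (hPw : ∀ k, w k ∈ P)
    (hPr : ∀ k, w k * r (i k) ∈ P) {m : ℕ} (hm : m ≠ 0)
    (hζ : ζ ^ m ∈ Subgroup.closure (Set.range (rho r w i)))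
    (hH : Good P r w i ζ H) (c : H →* Multiplicative ℤ) (hc1 : c ≠ 1)
    (hc : ∀ k, c ⟨rho r w i k, hH.rho_mem k⟩ = 1) :
    ∃ H' : Subgroup F, Good P r w i ζ H' ∧ H' ≤ H ∧ ∃ p ∈ P, ∃ q ∈ P, p * q⁻¹ ∈ H ∧ p * q⁻¹ ∉ H' := by
  classical
  let kc : Subgroup F := c.ker.map H.subtype
  have hkc : ∀ y, y ∈ kc ↔ ∃ h : y ∈ H, c ⟨y, h⟩ = 1 := by
    intro y
    constructor
    · rintro ⟨y', hy', rfl⟩
      exact ⟨y'.2, hy'⟩
    · rintro ⟨h, hy⟩
      exact ⟨⟨y, h⟩, hy, rfl⟩
  have hle : hull P kc ≤ kc := hull_le P kc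
  have hleH : hull P kc ≤ H := fun y hy => ((hkc y).mp (hle hy)).1
  have hrho : ∀ k, rho r w i k ∈ hull P kc := by
    intro k
    exact mem_hull (hPr k) (hPw k) ((hkc _).mpr ⟨hH.rho_mem k, hc k⟩)
  have hzeta : ζ ∈ hull P kc := by
    have h1 : ζ ^ m ∈ kc := by
      have : Subgroup.closure (Set.range (rho r w i)) ≤ kc := by
        apply (Subgroup.closure_le kc).mpr
        rintro _ ⟨k, rfl⟩
        exact (hkc _).mpr ⟨hH.rho_mem k, hc k⟩
      exact this hζ
    obtain ⟨h2, h3⟩ := (hkc _).mp h1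
    have h4 : ζ ∈ kc := by
      refine (hkc _).mpr ⟨hH.zeta_mem, ?_⟩
      have h5 : (c ⟨ζ, hH.zeta_mem⟩) ^ m = 1 := by
        rw [← map_pow]
        exact h3
      have h6 : m • (c ⟨ζ, hH.zeta_mem⟩).toAdd = 0 := by
        rw [← toAdd_pow, h5, toAdd_one]
      rcases smul_eq_zero.mp h6 with h7 | h7
      · exact absurd h7 hm
      · exact Multiplicative.toAdd.injective h7
    have h8 := mem_hull (P := P) (H := kc) hPζ hP1 (by rwa [inv_one, mul_one])
    rwa [inv_one, mul_one] at h8
  refine ⟨hull P kc, ⟨hull_hull P kc, hzeta, hrho, ?_⟩, hleH, ?_⟩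
  · intro a ha
    obtain ⟨Q, _, _, x, κ, rep, hrep, hconj, hE, hx⟩ := hH.data
    obtain ⟨f, hf, hfa⟩ := key c (fun k => (⟨rho r w i k, hH.rho_mem k⟩ : H)) x κ rep hrep hc
      hconj hE a (by
        intro k l h1 h2
        obtain ⟨h3, h4⟩ := hx k l h1
        apply ha k l h3
        apply mem_hull (hPw k) (hPw l)
        refine (hkc _).mpr ⟨?_, ?_⟩
        · rw [← h4]; exact (x k * (x l)⁻¹).2
        · have h5 : (⟨w k * (w l)⁻¹, by rw [← h4]; exact (x k * (x l)⁻¹).2⟩ : H) =
              x k * (x l)⁻¹ := Subtype.ext h4.symm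
          rw [h5, map_mul, map_inv, h2, mul_inv_cancel])
    refine ⟨{ toFun := fun y => Multiplicative.ofAdd (f ⟨y.1, hleH y.2⟩)
              map_one' := ?_
              map_mul' := ?_ }, fun k h => ?_⟩
    · have h1 : f 1 = 0 := by
        have := hf 1 1 (map_one c)
        rw [mul_one] at this
        linarith
      show Multiplicative.ofAdd (f 1) = 1
      rw [h1]; rfl
    · intro y y'
      show Multiplicative.ofAdd (f (⟨y.1, hleH y.2⟩ * ⟨y'.1, hleH y'.2⟩)) = _
      rw [hf _ _ ((hkc _).mp (hle y.2)).2]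
      rfl
    · show Multiplicative.ofAdd (f ⟨rho r w i k, hleH h⟩) = _
      rw [← hfa k]
  · by_contra hcon
    push Not at hcon
    apply hc1
    have h1 : H ≤ kc := by
      rw [← hH.hull_eq]
      apply (Subgroup.closure_le kc).mpr
      rintro y ⟨⟨p, hp, q, hq, rfl⟩, hy⟩
      exact hle (hcon p hp q hq hy)
    apply MonoidHom.ext
    rintro ⟨y, hy⟩
    exact ((hkc y).mp (h1 hy)).2

/-- the bottom of the tower -/
theorem Good.bottom [IsFreeGroup F] (hP1 : (1 : F) ∈ P) (hPζ : ζ ∈ P) (hPw : ∀ k, w k ∈ P)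
    (hPr : ∀ k, w k * r (i k) ∈ P) {m : ℕ} (hm : m ≠ 0)
    (hζ : ζ ^ m ∈ Subgroup.closure (Set.range (rho r w i)))
    (hH : Good P r w i ζ H) :
    ∃ H' : Subgroup F, ∃ hH' : Good P r w i ζ H', ∀ c : H' →* Multiplicative ℤ,
      (∀ k, c ⟨rho r w i k, hH'.rho_mem k⟩ = 1) → c = 1 := by
  classical
  obtain ⟨N, hN⟩ : ∃ N, N = ((P ×ˢ P).filter fun p => p.1 * p.2⁻¹ ∈ H).card := ⟨_, rfl⟩
  induction N using Nat.strong_induction_on generalizing H with
  | _ N ih =>
    by_cases hall : ∀ c : H →* Multiplicative ℤ,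
        (∀ k, c ⟨rho r w i k, hH.rho_mem k⟩ = 1) → c = 1
    · exact ⟨H, hH, hall⟩
    · push Not at hall
      obtain ⟨c, hc, hc1⟩ := hall
      obtain ⟨H', hH', hle, p, hp, q, hq, h1, h2⟩ :=
        hH.step hP1 hPζ hPw hPr hm hζ c hc1 hc
      refine ih _ ?_ hH' rfl
      rw [hN]
      apply Finset.card_lt_card
      refine ⟨?_, ?_⟩
      · intro y hy
        rw [Finset.mem_filter] at hy ⊢
        exact ⟨hy.1, hle hy.2⟩
      · intro hsub
        have : (p, q) ∈ (P ×ˢ P).filter fun p => p.1 * p.2⁻¹ ∈ H' :=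
          hsub (Finset.mem_filter.mpr ⟨Finset.mem_product.mpr ⟨hp, hq⟩, h1⟩)
        exact h2 (Finset.mem_filter.mp this).2

end tower

/-- **Tower theorem.** Let `F` be a free group and `r j` elements of `F` such that the values of
homomorphisms `F → ℤ` at the `r j` can be prescribed. Let `ζ` be an element such that some power
`ζ ^ m` with `m ≠ 0` is a product of the conjugates `ρ k = w k * r (i k) * (w k)⁻¹` and their
inverses. Then there is a finitely generated subgroup of `F` that contains `ζ` and all `ρ k` and is such that every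
homomorphism to a solvable group that kills all `ρ k` is trivial. -/
theorem tower {F : Type} [Group F] [IsFreeGroup F] {ι K : Type} [Fintype K] (r : ι → F) (w : K → F)
    (i : K → ι) (ζ : F) (m : ℕ) (hm : m ≠ 0)
    (hζ : ζ ^ m ∈ Subgroup.closure (Set.range (rho r w i)))
    (hE : ∀ a : ι → ℤ, ∃ c : F →* Multiplicative ℤ, ∀ j, c (r j) = Multiplicative.ofAdd (a j)) :
    ∃ (H : Subgroup F) (hH : ∀ k, rho r w i k ∈ H), H.FG ∧ ζ ∈ H ∧
      ∀ (S : Type) [Group S] [Group.IsSolvable S] (ψ : H →* S), (∀ k, ψ ⟨rho r w i k, hH k⟩ = 1) →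
        ψ = 1 := by
  classical
  let P : Finset F := insert 1 (insert ζ ((Finset.univ.image w) ∪
    (Finset.univ.image fun k => w k * r (i k))))
  have hP1 : (1 : F) ∈ P := by simp [P]
  have hPζ : ζ ∈ P := by simp [P]
  have hPw : ∀ k, w k ∈ P := by
    intro k
    simp only [P, Finset.mem_insert, Finset.mem_union, Finset.mem_image, Finset.mem_univ, true_and]
    exact Or.inr (Or.inr (Or.inl ⟨k, rfl⟩))
  have hPr : ∀ k, w k * r (i k) ∈ P := by
    intro k
    simp only [P, Finset.mem_insert, Finset.mem_union, Finset.mem_image, Finset.mem_univ, true_and]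
    exact Or.inr (Or.inr (Or.inr ⟨k, rfl⟩))
  have hmem : ∀ p ∈ P, p ∈ hull P (⊤ : Subgroup F) := by
    intro p hp
    have := mem_hull (H := (⊤ : Subgroup F)) hp hP1 (Subgroup.mem_top _)
    rwa [inv_one, mul_one] at this
  have hgood : Good P r w i ζ (hull P ⊤) := by
    refine ⟨hull_hull P ⊤, hmem ζ hPζ, fun k => ?_, fun a ha => ?_⟩
    · exact mem_hull (hPr k) (hPw k) (Subgroup.mem_top _)
    · have ha' : ∀ k l, i k = i l → a k = a l := fun k l h =>
        ha k l h ((hull P ⊤).mul_mem (hmem _ (hPw k)) ((hull P ⊤).inv_mem (hmem _ (hPw l))))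
      obtain ⟨c, hc⟩ := hE fun j => if h : ∃ k, i k = j then a h.choose else 0
      refine ⟨c.comp (hull P ⊤).subtype, fun k h => ?_⟩
      show c (w k * r (i k) * (w k)⁻¹) = _
      have hex : ∃ k', i k' = i k := ⟨k, rfl⟩
      rw [map_mul, map_mul, map_inv, mul_comm (c (w k)), mul_inv_cancel_right, hc, dif_pos hex]
      congr 1
      exact ha' _ _ hex.choose_spec
  obtain ⟨H, hH, h0⟩ := hgood.bottom hP1 hPζ hPw hPr hm hζ
  refine ⟨H, hH.rho_mem, by rw [← hH.hull_eq]; exact hull_fg P H, hH.zeta_mem,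
    fun S _ _ ψ hψ => ?_⟩
  obtain ⟨Q, _, _, x, κ, rep, hrep, hconj, hE', hx⟩ := hH.data
  refine solvable_trivial (fun k => (⟨rho r w i k, hH.rho_mem k⟩ : H)) ?_ ψ hψ
  intro B _ b hb
  exact abelian_trivial _ x κ rep hconj hE' h0 b hb

end Pool.Agent.RelGapTower
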