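import Pool.Agent.RelGap.Fox
import Pool.Agent.RelGap.Contr
import Pool.Agent.RelGapTower.Tower

/-!
# Elements of finite order in the fundamental group of a subcomplex of a contractible 2-complex
-/

set_option autoImplicit false

open scoped BigOperators commutatorElement

namespace Pool.Agent.RelGapTower

open Pool.Agent.FoxAsph Pool.Agent.RelGap Pool.Agent.RelGap.Contr

/-- an element of a normal closure is a product of finitely many conjugates -/
theorem exists_conjugates {Γ ι : Type} [Group Γ] (r : ι → Γ) (x : Γ)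
    (hx : x ∈ Subgroup.normalClosure (Set.range r)) :
    ∃ (K : Type) (_ : Fintype K) (w : K → Γ) (i : K → ι),
      x ∈ Subgroup.closure (Set.range (rho r w i)) := by
  unfold Subgroup.normalClosure at hx
  induction hx using Subgroup.closure_induction with
  | mem x hx =>
    rw [Group.mem_conjugatesOfSet_iff] at hx
    obtain ⟨_, ⟨j, rfl⟩, hj⟩ := hx
    rw [isConj_iff] at hj
    obtain ⟨g, hg⟩ := hj
    exact ⟨Unit, inferInstance, fun _ => g, fun _ => j, Subgroup.subset_closure ⟨(), hg⟩⟩
  | one => exact ⟨Empty, inferInstance, fun k => k.elim, fun k => k.elim, Subgroup.one_mem _⟩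
  | mul x y _ _ hx hy =>
    obtain ⟨K, _, w, i, h⟩ := hx
    obtain ⟨K', _, w', i', h'⟩ := hy
    refine ⟨K ⊕ K', inferInstance, Sum.elim w w', Sum.elim i i', Subgroup.mul_mem _ ?_ ?_⟩
    · refine Subgroup.closure_mono ?_ h
      rintro _ ⟨k, rfl⟩
      exact ⟨Sum.inl k, rfl⟩
    · refine Subgroup.closure_mono ?_ h'
      rintro _ ⟨k, rfl⟩
      exact ⟨Sum.inr k, rfl⟩
  | inv x _ hx =>
    obtain ⟨K, _, w, i, h⟩ := hx
    exact ⟨K, inferInstance, w, i, Subgroup.inv_mem _ h⟩

/-- the values of homomorphisms to `ℤ` at the relators of a contractible complex can be prescribed -/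
theorem prescribe_of_contractible {X ι : Type} [Fintype X] [Fintype ι] (rel : ι → Word X)
    (h : Contractible rel) (b : ι → ℤ) : ∃ c : FreeGroup X →* Multiplicative ℤ,
      ∀ i, c (FreeGroup.mk (rel i)) = Multiplicative.ofAdd (b i) := by
  classical
  choose z hz using fun x : X => surj_int rel h.1 (Pi.single x 1)
  let c : FreeGroup X →* Multiplicative ℤ :=
    FreeGroup.lift fun x => Multiplicative.ofAdd (∑ i, z x i * b i)
  have hc : ∀ x, (c (FreeGroup.of x)).toAdd = ∑ i, z x i * b i := by
    intro x
    have h1 : c (FreeGroup.of x) = Multiplicative.ofAdd (∑ i, z x i * b i) :=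
      FreeGroup.lift_apply_of
    rw [h1, toAdd_ofAdd]
  refine ⟨c, fun j => ?_⟩
  apply Multiplicative.toAdd.injective
  rw [toAdd_ofAdd, hom_eq c]
  -- the coefficients
  have hcoef : ∀ i, ∑ x, (ex x (FreeGroup.mk (rel j))).toAdd * z x i = if i = j then 1 else 0 := by
    have h1 := inj_int rel h (fun i => ∑ x, (ex x (FreeGroup.mk (rel j))).toAdd * z x i -
      if i = j then 1 else 0) (by
        intro y
        have h2 : ∀ i, (∑ x, (ex x (FreeGroup.mk (rel j))).toAdd * z x i -
            if i = j then 1 else 0) * (ex y (FreeGroup.mk (rel i))).toAdd =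
            ∑ x, (ex x (FreeGroup.mk (rel j))).toAdd *
              (z x i * (ex y (FreeGroup.mk (rel i))).toAdd) -
            (if i = j then (ex y (FreeGroup.mk (rel i))).toAdd else 0) := by
          intro i
          rw [sub_mul, Finset.sum_mul]
          congr 1
          · exact Finset.sum_congr rfl fun x _ => by ring
          · split_ifs <;> ring
        rw [Finset.sum_congr rfl fun i _ => h2 i, Finset.sum_sub_distrib, Finset.sum_comm]
        have h3 : ∀ x, ∑ i, (ex x (FreeGroup.mk (rel j))).toAdd *
            (z x i * (ex y (FreeGroup.mk (rel i))).toAdd) =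
            (ex x (FreeGroup.mk (rel j))).toAdd * (Pi.single x 1 : X → ℤ) y := by
          intro x
          rw [← Finset.mul_sum, ← hz x y]
        rw [Finset.sum_congr rfl fun x _ => h3 x, Finset.sum_eq_single y, Finset.sum_ite_eq',
          if_pos (Finset.mem_univ j), Pi.single_eq_same, mul_one, sub_self]
        · intro x _ hx
          rw [Pi.single_eq_of_ne (Ne.symm hx), mul_zero]
        · intro h4; exact absurd (Finset.mem_univ _) h4)
    intro i
    exact sub_eq_zero.mp (congrFun h1 i)
  have h5 : ∑ x, (ex x (FreeGroup.mk (rel j))).toAdd • (c (FreeGroup.of x)).toAdd =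
      ∑ i, (∑ x, (ex x (FreeGroup.mk (rel j))).toAdd * z x i) * b i := by
    have h6 : ∀ x, (ex x (FreeGroup.mk (rel j))).toAdd • (c (FreeGroup.of x)).toAdd =
        ∑ i, ((ex x (FreeGroup.mk (rel j))).toAdd * z x i) * b i := by
      intro x
      rw [hc, smul_eq_mul, Finset.mul_sum]
      exact Finset.sum_congr rfl fun i _ => by ring
    rw [Finset.sum_congr rfl fun x _ => h6 x, Finset.sum_comm]
    exact Finset.sum_congr rfl fun i _ => by rw [Finset.sum_mul]
  rw [h5, Finset.sum_congr rfl fun i _ => by rw [hcoef i]]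
  rw [Finset.sum_eq_single j]
  · rw [if_pos rfl, one_mul]
  · intro i _ hi
    rw [if_neg hi, zero_mul]
  · intro h7; exact absurd (Finset.mem_univ _) h7

/-- the same for a subcomplex -/
theorem prescribe_of_subcomplex {X Y ι κ : Type} [Fintype X] [Fintype Y] [Fintype ι] [Fintype κ]
    (rel : ι → Word X) (extra : κ → Word (X ⊕ Y))
    (h : Contractible (Sum.elim (fun i => (rel i).map (Prod.map Sum.inl id)) extra)) (b : ι → ℤ) :
    ∃ c : FreeGroup X →* Multiplicative ℤ,
      ∀ i, c (FreeGroup.mk (rel i)) = Multiplicative.ofAdd (b i) := by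
  obtain ⟨c, hc⟩ := prescribe_of_contractible _ h (Sum.elim b 0)
  exact ⟨c.comp (FreeGroup.map Sum.inl), fun i => hc (Sum.inl i)⟩

/-- If the values of homomorphisms to `ℤ` at the relators can be prescribed, then every element of
finite order of the group lies in a finitely generated perfect subgroup. -/
theorem perfect_of_torsion {X ι : Type} (rel : ι → Word X)
    (hE : ∀ b : ι → ℤ, ∃ c : FreeGroup X →* Multiplicative ℤ,
      ∀ i, c (FreeGroup.mk (rel i)) = Multiplicative.ofAdd (b i))
    (g : Grp rel) (m : ℕ) (hm : m ≠ 0) (hg : g ^ m = 1) :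
    ∃ P : Subgroup (Grp rel), P.FG ∧ ⁅P, P⁆ = P ∧ g ∈ P := by
  obtain ⟨ζ, hζ⟩ := valF_surjective rel g
  have hζm : ζ ^ m ∈ Subgroup.normalClosure (Set.range fun i => FreeGroup.mk (rel i)) := by
    rw [← valF_eq_one_iff, map_pow, hζ, hg]
  obtain ⟨K, _, w, i, hK⟩ := exists_conjugates _ _ hζm
  obtain ⟨H, hH, hfg, hζH, hsolv⟩ := tower _ w i ζ m hm hK hE
  have hrho : ∀ k, valF rel (rho (fun i => FreeGroup.mk (rel i)) w i k) = 1 := by
    intro k
    unfold rho
    rw [map_mul, map_mul, map_inv, valF_rel rel (i k), mul_one, mul_inv_cancel]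
  let P : Subgroup (Grp rel) := H.map (valF rel)
  have hPfg : P.FG := by
    obtain ⟨S, hS⟩ := hfg
    classical
    refine ⟨S.image (valF rel), ?_⟩
    rw [Finset.coe_image, ← MonoidHom.map_closure, hS]
  refine ⟨P, hPfg, ?_, ⟨ζ, hζH, hζ⟩⟩
  let p : H →* P := (valF rel).subgroupMap H
  have hp : Function.Surjective p := (valF rel).subgroupMap_surjective H
  have h1 : (Abelianization.of (G := P)).comp p = 1 := by
    apply hsolv
    intro k
    have h2 : p ⟨rho (fun i => FreeGroup.mk (rel i)) w i k, hH k⟩ = 1 := Subtype.ext (hrho k)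
    rw [MonoidHom.comp_apply, h2, map_one]
  have h3 : commutator P = ⊤ := by
    rw [eq_top_iff]
    intro y _
    obtain ⟨h, hh⟩ := hp y
    have h4 := DFunLike.congr_fun h1 h
    rw [MonoidHom.comp_apply, hh, MonoidHom.one_apply] at h4
    exact (QuotientGroup.eq_one_iff y).mp h4
  have h5 := congrArg (Subgroup.map P.subtype) h3
  rw [commutator_def, Subgroup.map_commutator, ← MonoidHom.range_eq_map, Subgroup.range_subtype] at h5
  exact h5

/-- **Theorem.** Let `K` be a finite contractible 2-complex and `L` a connected subcomplex. Every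
element of finite order of the fundamental group of `L` lies in a finitely generated perfect
subgroup. -/
theorem perfect_of_subcomplex {X Y ι κ : Type} [Fintype X] [Fintype Y] [Fintype ι] [Fintype κ]
    (rel : ι → Word X) (extra : κ → Word (X ⊕ Y))
    (h : Contractible (Sum.elim (fun i => (rel i).map (Prod.map Sum.inl id)) extra))
    (g : Grp rel) (m : ℕ) (hm : m ≠ 0) (hg : g ^ m = 1) :
    ∃ P : Subgroup (Grp rel), P.FG ∧ ⁅P, P⁆ = P ∧ g ∈ P :=
  perfect_of_torsion rel (prescribe_of_subcomplex rel extra h) g m hm hg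

end Pool.Agent.RelGapTower
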