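import Pool.Agent.RelGapTower.Perfect
import Pool.Agent.FoxAsph.Conservative

/-!
# The subgroup generated by the finitely generated perfect subgroups

Let `G` be the fundamental group of a connected subcomplex of a finite contractible 2-complex. The
subgroup `R` generated by the finitely generated perfect subgroups of `G` is their directed union,
and the quotient `G/R` is locally indicable.
-/

set_option autoImplicit false

open scoped BigOperators commutatorElement

namespace Pool.Agent.RelGapTower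

open Pool.Agent.FoxAsph Pool.Agent.RelGap Pool.Agent.RelGap.Contr

/-- the subgroup generated by the finitely generated perfect subgroups -/
def perfRad (G : Type) [Group G] : Subgroup G := sSup {P : Subgroup G | P.FG ∧ ⁅P, P⁆ = P}

section radical

variable {G : Type} [Group G]

theorem sup_perfect {P Q : Subgroup G} (hP : ⁅P, P⁆ = P) (hQ : ⁅Q, Q⁆ = Q) :
    ⁅P ⊔ Q, P ⊔ Q⁆ = P ⊔ Q := by
  apply le_antisymm
  · rw [Subgroup.commutator_le]
    intro g₁ h₁ g₂ h₂
    rw [commutatorElement_def]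
    exact Subgroup.mul_mem _ (Subgroup.mul_mem _ (Subgroup.mul_mem _ h₁ h₂)
      (Subgroup.inv_mem _ h₁)) (Subgroup.inv_mem _ h₂)
  · apply sup_le
    · calc P = ⁅P, P⁆ := hP.symm
        _ ≤ _ := Subgroup.commutator_mono le_sup_left le_sup_left
    · calc Q = ⁅Q, Q⁆ := hQ.symm
        _ ≤ _ := Subgroup.commutator_mono le_sup_right le_sup_right

theorem bot_perfect : ⁅(⊥ : Subgroup G), (⊥ : Subgroup G)⁆ = ⊥ := Subgroup.commutator_bot_left _

theorem bot_fg : (⊥ : Subgroup G).FG := ⟨∅, by simp⟩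

theorem fg_map {H : Type} [Group H] {P : Subgroup G} (h : P.FG) (f : G →* H) : (P.map f).FG := by
  classical
  obtain ⟨S, hS⟩ := h
  refine ⟨S.image f, ?_⟩
  rw [Finset.coe_image, ← MonoidHom.map_closure, hS]

/-- an element of the radical lies in a finitely generated perfect subgroup -/
theorem mem_perfRad (x : G) :
    x ∈ perfRad G ↔ ∃ P : Subgroup G, P.FG ∧ ⁅P, P⁆ = P ∧ x ∈ P := by
  unfold perfRad
  rw [Subgroup.mem_sSup_of_directedOn]
  · constructor
    · rintro ⟨P, ⟨h1, h2⟩, h3⟩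
      exact ⟨P, h1, h2, h3⟩
    · rintro ⟨P, h1, h2, h3⟩
      exact ⟨P, ⟨h1, h2⟩, h3⟩
  · exact ⟨⊥, bot_fg, bot_perfect⟩
  · rintro P ⟨h1, h2⟩ Q ⟨h3, h4⟩
    exact ⟨P ⊔ Q, ⟨h1.sup h3, sup_perfect h2 h4⟩, le_sup_left, le_sup_right⟩

theorem le_perfRad {P : Subgroup G} (h1 : P.FG) (h2 : ⁅P, P⁆ = P) : P ≤ perfRad G :=
  le_sSup (show P ∈ {P : Subgroup G | P.FG ∧ ⁅P, P⁆ = P} from ⟨h1, h2⟩)

instance perfRad_normal (G : Type) [Group G] : (perfRad G).Normal := by
  refine ⟨fun n hn g => ?_⟩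
  rw [mem_perfRad] at hn ⊢
  obtain ⟨P, hfg, hP, hn⟩ := hn
  refine ⟨P.map (MulAut.conj g).toMonoidHom, fg_map hfg _, ?_, ⟨n, hn, rfl⟩⟩
  rw [← Subgroup.map_commutator, hP]

/-- finitely many elements of the radical lie in one finitely generated perfect subgroup -/
theorem exists_perfect_of_finset (S : Finset G) (hS : ∀ x ∈ S, x ∈ perfRad G) :
    ∃ P : Subgroup G, P.FG ∧ ⁅P, P⁆ = P ∧ ∀ x ∈ S, x ∈ P := by
  classical
  induction S using Finset.induction_on with
  | empty => exact ⟨⊥, bot_fg, bot_perfect, fun x hx => absurd hx (Finset.notMem_empty x)⟩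
  | insert a S _ ih =>
    obtain ⟨P, h1, h2, h3⟩ := ih fun x hx => hS x (Finset.mem_insert_of_mem hx)
    obtain ⟨Q, h4, h5, h6⟩ := (mem_perfRad a).mp (hS a (Finset.mem_insert_self a S))
    refine ⟨P ⊔ Q, h1.sup h4, sup_perfect h2 h5, fun x hx => ?_⟩
    rw [Finset.mem_insert] at hx
    rcases hx with rfl | hx
    · exact (le_sup_right : Q ≤ P ⊔ Q) h6
    · exact (le_sup_left : P ≤ P ⊔ Q) (h3 x hx)

end radical

section abelian

/-- in a finitely generated group without homomorphisms to `ℤ` every element has a power in the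
commutator subgroup -/
theorem exists_pow_mem_commutator {M : Type} [Group M] [Group.FG M]
    (h0 : ∀ c : M →* Multiplicative ℤ, c = 1) (y : M) : ∃ m : ℕ, m ≠ 0 ∧ y ^ m ∈ commutator M := by
  classical
  have hfin : Module.Finite ℤ (Additive (Abelianization M)) := by
    rw [Module.Finite.iff_addGroup_fg]
    have : Group.FG (Abelianization M) := by
      unfold Abelianization
      infer_instance
    infer_instance
  let T := Submodule.torsion ℤ (Additive (Abelianization M))
  have : Module.Finite ℤ (Additive (Abelianization M) ⧸ T) := inferInstance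
  have : Module.Free ℤ (Additive (Abelianization M) ⧸ T) := inferInstance
  let a : Additive (Abelianization M) := Additive.ofMul (Abelianization.of y)
  have h1 : T.mkQ a = 0 := by
    rw [← Module.forall_dual_apply_eq_zero_iff ℤ]
    intro φ
    let c : M →* Multiplicative ℤ :=
      (AddMonoidHom.toMultiplicative (φ.comp T.mkQ).toAddMonoidHom).comp
        ((MulEquiv.multiplicativeAdditive (Abelianization M)).symm.toMonoidHom.comp
          (Abelianization.of))
    have h2 := DFunLike.congr_fun (h0 c) y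
    exact Multiplicative.ofAdd.injective h2
  have h2 : a ∈ T := by
    rwa [Submodule.mkQ_apply, Submodule.Quotient.mk_eq_zero] at h1
  obtain ⟨m, hm⟩ := (Submodule.mem_torsion_iff a).mp h2
  have hm0 : (m : ℤ) ≠ 0 := nonZeroDivisors.coe_ne_zero m
  refine ⟨(m : ℤ).natAbs, Int.natAbs_ne_zero.mpr hm0, ?_⟩
  have h3 : (m : ℤ) • a = 0 := hm
  have h4 : ((m : ℤ).natAbs : ℤ) • a = 0 := by
    rcases Int.natAbs_eq (m : ℤ) with h | h
    · rwa [← h]
    · have h5 : ((m : ℤ).natAbs : ℤ) = - (m : ℤ) := by omega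
      rw [h5, neg_smul, h3, neg_zero]
  have h5 : (Abelianization.of y) ^ (m : ℤ).natAbs = 1 := by
    rw [natCast_zsmul] at h4
    exact Additive.ofMul.injective h4
  rw [← map_pow] at h5
  exact (QuotientGroup.eq_one_iff _).mp h5

end abelian

section tower

variable {F : Type} [Group F] {ι K : Type}

/-- finitely many elements of a normal closure are products of conjugates from one finite family -/
theorem exists_conjugates_finset (r : ι → F) (S : Finset F)
    (hS : ∀ x ∈ S, x ∈ Subgroup.normalClosure (Set.range r)) :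
    ∃ (K : Type) (_ : Fintype K) (w : K → F) (i : K → ι),
      ∀ x ∈ S, x ∈ Subgroup.closure (Set.range (rho r w i)) := by
  classical
  induction S using Finset.induction_on with
  | empty =>
    exact ⟨Empty, inferInstance, fun k => k.elim, fun k => k.elim,
      fun x hx => absurd hx (Finset.notMem_empty x)⟩
  | insert a S _ ih =>
    obtain ⟨K, _, w, i, h⟩ := ih fun x hx => hS x (Finset.mem_insert_of_mem hx)
    obtain ⟨K', _, w', i', h'⟩ := exists_conjugates r a (hS a (Finset.mem_insert_self a S))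
    refine ⟨K ⊕ K', inferInstance, Sum.elim w w', Sum.elim i i', fun x hx => ?_⟩
    rw [Finset.mem_insert] at hx
    rcases hx with rfl | hx
    · refine Subgroup.closure_mono ?_ h'
      rintro _ ⟨k, rfl⟩
      exact ⟨Sum.inr k, rfl⟩
    · refine Subgroup.closure_mono ?_ (h x hx)
      rintro _ ⟨k, rfl⟩
      exact ⟨Sum.inl k, rfl⟩

/-- A homomorphism to `ℤ` of a subgroup that contains `Z` and the `ρ k`, and that kills the `ρ k`,
kills `Z`. -/
def Kills (r : ι → F) (w : K → F) (i : K → ι) (Z : Finset F) : Prop :=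
  ∀ (H : Subgroup F) (hr : ∀ k, rho r w i k ∈ H) (hZ : ∀ z ∈ Z, z ∈ H) (c : H →* Multiplicative ℤ),
    (∀ k, c ⟨rho r w i k, hr k⟩ = 1) → ∀ z (hz : z ∈ Z), c ⟨z, hZ z hz⟩ = 1

variable [Fintype K] {P : Finset F} {r : ι → F} {w : K → F} {i : K → ι} {Z : Finset F}
  {H : Subgroup F}

/-- one step down the tower, with a finite set -/
theorem Good.stepZ [IsFreeGroup F] (hP1 : (1 : F) ∈ P) (hPZ : ∀ z ∈ Z, z ∈ P)
    (hPw : ∀ k, w k ∈ P) (hPr : ∀ k, w k * r (i k) ∈ P) (hZ : Kills r w i Z)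
    (hH : Good P r w i 1 H) (hZH : ∀ z ∈ Z, z ∈ H) (c : H →* Multiplicative ℤ) (hc1 : c ≠ 1)
    (hc : ∀ k, c ⟨rho r w i k, hH.rho_mem k⟩ = 1) :
    ∃ H' : Subgroup F, Good P r w i 1 H' ∧ (∀ z ∈ Z, z ∈ H') ∧ H' ≤ H ∧
      ∃ p ∈ P, ∃ q ∈ P, p * q⁻¹ ∈ H ∧ p * q⁻¹ ∉ H' := by
  classical
  let kc : Subgroup F := c.ker.map H.subtype
  have hkc : ∀ y, y ∈ kc ↔ ∃ h : y ∈ H, c ⟨y, h⟩ = 1 := by
    intro y
    constructor
    · rintro ⟨y', hy', rfl⟩
      exact ⟨y'.2, hy'⟩
    · rintro ⟨h, hy⟩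
      exact ⟨⟨y, h⟩, hy, rfl⟩
  have hle : hull P kc ≤ kc := hull_le P kc
  have hleH : hull P kc ≤ H := fun y hy => ((hkc y).mp (hle hy)).1
  have hrho : ∀ k, rho r w i k ∈ hull P kc := by
    intro k
    exact mem_hull (hPr k) (hPw k) ((hkc _).mpr ⟨hH.rho_mem k, hc k⟩)
  have hzeta : ∀ z ∈ Z, z ∈ hull P kc := by
    intro z hz
    have h4 : z ∈ kc := (hkc _).mpr ⟨hZH z hz, hZ H hH.rho_mem hZH c hc z hz⟩
    have h8 := mem_hull (P := P) (H := kc) (hPZ z hz) hP1 (by rwa [inv_one, mul_one])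
    rwa [inv_one, mul_one] at h8
  refine ⟨hull P kc, ⟨hull_hull P kc, Subgroup.one_mem _, hrho, ?_⟩, hzeta, hleH, ?_⟩
  · intro a ha
    obtain ⟨Q, _, _, x, κ, rep, hrep, hconj, hE, hx⟩ := hH.data
    obtain ⟨f, hf, hfa⟩ := key c (fun k => (⟨rho r w i k, hH.rho_mem k⟩ : H)) x κ rep hrep hc
      hconj hE a (by
        intro k l h1 h2
        obtain ⟨h3, h4⟩ := hx k l h1
        apply ha k l h3
        apply mem_hull (hPw k) (hPw l)
        refine (hkc _).mpr ⟨?_, ?_⟩
        · rw [← h4]; exact (x k * (x l)⁻¹).2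
        · have h5 : (⟨w k * (w l)⁻¹, by rw [← h4]; exact (x k * (x l)⁻¹).2⟩ : H) =
              x k * (x l)⁻¹ := Subtype.ext h4.symm
          rw [h5, map_mul, map_inv, h2, mul_inv_cancel])
    refine ⟨{ toFun := fun y => Multiplicative.ofAdd (f ⟨y.1, hleH y.2⟩)
              map_one' := ?_
              map_mul' := ?_ }, fun k h => ?_⟩
    · have h1 : f 1 = 0 := by
        have := hf 1 1 (map_one c)
        rw [mul_one] at this
        linarith
      show Multiplicative.ofAdd (f 1) = 1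
      rw [h1]; rfl
    · intro y y'
      show Multiplicative.ofAdd (f (⟨y.1, hleH y.2⟩ * ⟨y'.1, hleH y'.2⟩)) = _
      rw [hf _ _ ((hkc _).mp (hle y.2)).2]
      rfl
    · show Multiplicative.ofAdd (f ⟨rho r w i k, hleH h⟩) = _
      rw [← hfa k]
  · by_contra hcon
    push Not at hcon
    apply hc1
    have h1 : H ≤ kc := by
      rw [← hH.hull_eq]
      apply (Subgroup.closure_le kc).mpr
      rintro y ⟨⟨p, hp, q, hq, rfl⟩, hy⟩
      exact hle (hcon p hp q hq hy)
    apply MonoidHom.ext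
    rintro ⟨y, hy⟩
    exact ((hkc y).mp (h1 hy)).2

/-- the bottom of the tower, with a finite set -/
theorem Good.bottomZ [IsFreeGroup F] (hP1 : (1 : F) ∈ P) (hPZ : ∀ z ∈ Z, z ∈ P)
    (hPw : ∀ k, w k ∈ P) (hPr : ∀ k, w k * r (i k) ∈ P) (hZ : Kills r w i Z)
    (hH : Good P r w i 1 H) (hZH : ∀ z ∈ Z, z ∈ H) :
    ∃ H' : Subgroup F, ∃ hH' : Good P r w i 1 H', (∀ z ∈ Z, z ∈ H') ∧
      ∀ c : H' →* Multiplicative ℤ, (∀ k, c ⟨rho r w i k, hH'.rho_mem k⟩ = 1) → c = 1 := by
  classical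
  obtain ⟨N, hN⟩ : ∃ N, N = ((P ×ˢ P).filter fun p => p.1 * p.2⁻¹ ∈ H).card := ⟨_, rfl⟩
  induction N using Nat.strong_induction_on generalizing H with
  | _ N ih =>
    by_cases hall : ∀ c : H →* Multiplicative ℤ,
        (∀ k, c ⟨rho r w i k, hH.rho_mem k⟩ = 1) → c = 1
    · exact ⟨H, hH, hZH, hall⟩
    · push Not at hall
      obtain ⟨c, hc, hc1⟩ := hall
      obtain ⟨H', hH', hZH', hle, p, hp, q, hq, h1, h2⟩ :=
        hH.stepZ hP1 hPZ hPw hPr hZ hZH c hc1 hc
      refine ih _ ?_ hH' hZH' rfl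
      rw [hN]
      apply Finset.card_lt_card
      refine ⟨?_, ?_⟩
      · intro y hy
        rw [Finset.mem_filter] at hy ⊢
        exact ⟨hy.1, hle hy.2⟩
      · intro hsub
        have : (p, q) ∈ (P ×ˢ P).filter fun p => p.1 * p.2⁻¹ ∈ H' :=
          hsub (Finset.mem_filter.mpr ⟨Finset.mem_product.mpr ⟨hp, hq⟩, h1⟩)
        exact h2 (Finset.mem_filter.mp this).2

end tower

/-- **Tower theorem** for a finite set of elements. -/
theorem towerZ {F : Type} [Group F] [IsFreeGroup F] {ι K : Type} [Fintype K] (r : ι → F) (w : K → F)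
    (i : K → ι) (Z : Finset F) (hZ : Kills r w i Z)
    (hE : ∀ a : ι → ℤ, ∃ c : F →* Multiplicative ℤ, ∀ j, c (r j) = Multiplicative.ofAdd (a j)) :
    ∃ (H : Subgroup F) (hH : ∀ k, rho r w i k ∈ H), H.FG ∧ (∀ z ∈ Z, z ∈ H) ∧
      ∀ (S : Type) [Group S] [Group.IsSolvable S] (ψ : H →* S), (∀ k, ψ ⟨rho r w i k, hH k⟩ = 1) →
        ψ = 1 := by
  classical
  let P : Finset F := insert 1 (Z ∪ ((Finset.univ.image w) ∪
    (Finset.univ.image fun k => w k * r (i k))))
  have hP1 : (1 : F) ∈ P := by simp [P]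
  have hPZ : ∀ z ∈ Z, z ∈ P := by
    intro z hz
    simp only [P, Finset.mem_insert, Finset.mem_union]
    exact Or.inr (Or.inl hz)
  have hPw : ∀ k, w k ∈ P := by
    intro k
    simp only [P, Finset.mem_insert, Finset.mem_union, Finset.mem_image, Finset.mem_univ, true_and]
    exact Or.inr (Or.inr (Or.inl ⟨k, rfl⟩))
  have hPr : ∀ k, w k * r (i k) ∈ P := by
    intro k
    simp only [P, Finset.mem_insert, Finset.mem_union, Finset.mem_image, Finset.mem_univ, true_and]
    exact Or.inr (Or.inr (Or.inr ⟨k, rfl⟩))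
  have hmem : ∀ p ∈ P, p ∈ hull P (⊤ : Subgroup F) := by
    intro p hp
    have := mem_hull (H := (⊤ : Subgroup F)) hp hP1 (Subgroup.mem_top _)
    rwa [inv_one, mul_one] at this
  have hgood : Good P r w i 1 (hull P ⊤) := by
    refine ⟨hull_hull P ⊤, Subgroup.one_mem _, fun k => ?_, fun a ha => ?_⟩
    · exact mem_hull (hPr k) (hPw k) (Subgroup.mem_top _)
    · have ha' : ∀ k l, i k = i l → a k = a l := fun k l h =>
        ha k l h ((hull P ⊤).mul_mem (hmem _ (hPw k)) ((hull P ⊤).inv_mem (hmem _ (hPw l))))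
      obtain ⟨c, hc⟩ := hE fun j => if h : ∃ k, i k = j then a h.choose else 0
      refine ⟨c.comp (hull P ⊤).subtype, fun k h => ?_⟩
      show c (w k * r (i k) * (w k)⁻¹) = _
      have hex : ∃ k', i k' = i k := ⟨k, rfl⟩
      rw [map_mul, map_mul, map_inv, mul_comm (c (w k)), mul_inv_cancel_right, hc, dif_pos hex]
      congr 1
      exact ha' _ _ hex.choose_spec
  obtain ⟨H, hH, hZH, h0⟩ := hgood.bottomZ hP1 hPZ hPw hPr hZ fun z hz => hmem z (hPZ z hz)
  refine ⟨H, hH.rho_mem, by rw [← hH.hull_eq]; exact hull_fg P H, hZH, fun S _ _ ψ hψ => ?_⟩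
  obtain ⟨Q, _, _, x, κ, rep, hrep, hconj, hE', hx⟩ := hH.data
  refine solvable_trivial (fun k => (⟨rho r w i k, hH.rho_mem k⟩ : H)) ?_ ψ hψ
  intro B _ b hb
  exact abelian_trivial _ x κ rep hconj hE' h0 b hb

/-- If the values of homomorphisms to `ℤ` at the relators can be prescribed and `Z` is killed by the
homomorphisms to `ℤ`, then the elements of `Z` lie in a finitely generated perfect subgroup. -/
theorem perfect_of_kills {X ι : Type} (rel : ι → Word X)
    (hE : ∀ b : ι → ℤ, ∃ c : FreeGroup X →* Multiplicative ℤ,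
      ∀ i, c (FreeGroup.mk (rel i)) = Multiplicative.ofAdd (b i))
    {K : Type} [Fintype K] (w : K → FreeGroup X) (i : K → ι) (Z : Finset (FreeGroup X))
    (hZ : Kills (fun i => FreeGroup.mk (rel i)) w i Z) :
    ∃ P : Subgroup (Grp rel), P.FG ∧ ⁅P, P⁆ = P ∧ ∀ z ∈ Z, valF rel z ∈ P := by
  obtain ⟨H, hH, hfg, hZH, hsolv⟩ := towerZ _ w i Z hZ hE
  have hrho : ∀ k, valF rel (rho (fun i => FreeGroup.mk (rel i)) w i k) = 1 := by
    intro k
    unfold rho
    rw [map_mul, map_mul, map_inv, valF_rel rel (i k), mul_one, mul_inv_cancel]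
  let P : Subgroup (Grp rel) := H.map (valF rel)
  refine ⟨P, fg_map hfg _, ?_, fun z hz => ⟨z, hZH z hz, rfl⟩⟩
  let p : H →* P := (valF rel).subgroupMap H
  have hp : Function.Surjective p := (valF rel).subgroupMap_surjective H
  have h1 : (Abelianization.of (G := P)).comp p = 1 := by
    apply hsolv
    intro k
    have h2 : p ⟨rho (fun i => FreeGroup.mk (rel i)) w i k, hH k⟩ = 1 := Subtype.ext (hrho k)
    rw [MonoidHom.comp_apply, h2, map_one]
  have h3 : commutator P = ⊤ := by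
    rw [eq_top_iff]
    intro y _
    obtain ⟨h, hh⟩ := hp y
    have h4 := DFunLike.congr_fun h1 h
    rw [MonoidHom.comp_apply, hh, MonoidHom.one_apply] at h4
    exact (QuotientGroup.eq_one_iff y).mp h4
  have h5 := congrArg (Subgroup.map P.subtype) h3
  rw [commutator_def, Subgroup.map_commutator, ← MonoidHom.range_eq_map, Subgroup.range_subtype] at h5
  exact h5

/-- a nontrivial homomorphism to `ℤ` can be made surjective -/
theorem exists_surjective_of_ne_one {M : Type} [Group M] (c : M →* Multiplicative ℤ) (hc : c ≠ 1) :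
    ∃ φ : M →* Multiplicative ℤ, Function.Surjective φ := by
  let A : AddSubgroup ℤ := (MonoidHom.toAdditiveLeft c).range
  have hA : ∀ x : M, (c x).toAdd ∈ A := fun x => ⟨Additive.ofMul x, rfl⟩
  obtain ⟨a, ha⟩ := Int.subgroup_cyclic A
  have hdvd : ∀ x : M, a ∣ (c x).toAdd := by
    intro x
    have h1 := hA x
    rw [ha, AddSubgroup.mem_closure_singleton] at h1
    obtain ⟨n, hn⟩ := h1
    exact ⟨n, by rw [← hn, smul_eq_mul, mul_comm]⟩
  have ha0 : a ≠ 0 := by
    intro h
    apply hc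
    apply MonoidHom.ext
    intro x
    have h1 := hdvd x
    rw [h, zero_dvd_iff] at h1
    exact Multiplicative.toAdd.injective h1
  refine ⟨{ toFun := fun x => Multiplicative.ofAdd ((c x).toAdd / a)
            map_one' := by simp
            map_mul' := fun x y => by
              rw [map_mul, toAdd_mul, Int.add_ediv_of_dvd_left (hdvd x), ofAdd_add] }, fun k => ?_⟩
  have h2 : a ∈ A := by
    rw [ha]
    exact AddSubgroup.subset_closure (Set.mem_singleton a)
  obtain ⟨x, hx⟩ := h2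
  have hx' : (c (Additive.toMul x)).toAdd = a := hx
  refine ⟨(Additive.toMul x) ^ k.toAdd, ?_⟩
  show Multiplicative.ofAdd ((c ((Additive.toMul x) ^ k.toAdd)).toAdd / a) = k
  rw [map_zpow, toAdd_zpow, hx', smul_eq_mul, Int.mul_ediv_cancel _ ha0]
  rfl

/-- **Theorem.** If the values of homomorphisms to `ℤ` at the relators can be prescribed, then the
quotient by the subgroup generated by the finitely generated perfect subgroups is locally
indicable. -/
theorem quotient_locallyIndicable {X ι : Type} (rel : ι → Word X)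
    (hE : ∀ b : ι → ℤ, ∃ c : FreeGroup X →* Multiplicative ℤ,
      ∀ i, c (FreeGroup.mk (rel i)) = Multiplicative.ofAdd (b i)) :
    LocallyIndicable (⊤ : Subgroup (Grp rel ⧸ perfRad (Grp rel))) := by
  classical
  intro L _ hfg hL
  by_contra hcon
  have h0 : ∀ c : L →* Multiplicative ℤ, c = 1 := by
    intro c
    by_contra hc
    exact hcon (exists_surjective_of_ne_one c hc)
  apply hL
  -- the projections
  let π : Grp rel →* Grp rel ⧸ perfRad (Grp rel) := QuotientGroup.mk' _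
  have hπ : Function.Surjective π := QuotientGroup.mk'_surjective _
  have hπ1 : ∀ g, π g = 1 ↔ g ∈ perfRad (Grp rel) := fun g => QuotientGroup.eq_one_iff g
  have hv := valF_surjective rel
  -- generators of `L` and their lifts
  have hLfg : Group.FG L := (Group.fg_iff_subgroup_fg L).mpr hfg
  obtain ⟨S, hS⟩ := hfg
  have hSL : ∀ s : S, (s : Grp rel ⧸ perfRad (Grp rel)) ∈ L := by
    intro s
    rw [← hS]
    exact Subgroup.subset_closure s.2
  have hlift : ∀ s : S, ∃ h : FreeGroup X, π (valF rel h) = s := by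
    intro s
    obtain ⟨g, hg⟩ := hπ s
    obtain ⟨h, hh⟩ := hv g
    exact ⟨h, by rw [hh, hg]⟩
  choose h hh using hlift
  let H0 : Subgroup (FreeGroup X) := Subgroup.closure (Set.range h)
  have hH0 : H0.map (π.comp (valF rel)) = L := by
    rw [MonoidHom.map_closure, ← hS]
    congr 1
    ext y
    constructor
    · rintro ⟨_, ⟨s, rfl⟩, rfl⟩
      show π (valF rel (h s)) ∈ _
      rw [hh]
      exact s.2
    · intro hy
      exact ⟨h ⟨y, hy⟩, ⟨_, rfl⟩, hh ⟨y, hy⟩⟩
  have hcomm : (commutator L).map L.subtype = (⁅H0, H0⁆).map (π.comp (valF rel)) := by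
    rw [Subgroup.map_commutator, hH0, commutator_def, Subgroup.map_commutator,
      ← MonoidHom.range_eq_map, Subgroup.range_subtype]
  have hpow : ∀ s : S, ∃ m : ℕ, m ≠ 0 ∧ ∃ u ∈ ⁅H0, H0⁆,
      valF rel (h s ^ m * u⁻¹) ∈ perfRad (Grp rel) := by
    intro s
    obtain ⟨m, hm, hm'⟩ := exists_pow_mem_commutator h0 (⟨s, hSL s⟩ : L)
    have h1 : (s : Grp rel ⧸ perfRad (Grp rel)) ^ m ∈ (commutator L).map L.subtype :=
      ⟨_, hm', rfl⟩
    rw [hcomm] at h1
    obtain ⟨u, hu, hu'⟩ := h1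
    refine ⟨m, hm, u, hu, ?_⟩
    rw [← hπ1]
    have h2 : π (valF rel u) = (s : Grp rel ⧸ perfRad (Grp rel)) ^ m := hu'
    rw [map_mul, map_mul, map_inv, map_inv, h2, map_pow, map_pow, hh, mul_inv_cancel]
  choose m hm u hu hmu using hpow
  -- a finitely generated perfect subgroup
  obtain ⟨Q, hQfg, hQ, hQd⟩ := exists_perfect_of_finset
    (Finset.univ.image fun s : S => valF rel (h s ^ m s * (u s)⁻¹)) (by
      intro x hx
      rw [Finset.mem_image] at hx
      obtain ⟨s, _, rfl⟩ := hx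
      exact hmu s)
  have hQd' : ∀ s : S, valF rel (h s ^ m s * (u s)⁻¹) ∈ Q := fun s =>
    hQd _ (Finset.mem_image_of_mem _ (Finset.mem_univ s))
  obtain ⟨T, hT⟩ := hQfg
  choose q hq using fun t : T => hv (t : Grp rel)
  let Q0 : Subgroup (FreeGroup X) := Subgroup.closure (Set.range q)
  have hQ0 : Q0.map (valF rel) = Q := by
    rw [MonoidHom.map_closure, ← hT]
    congr 1
    ext y
    constructor
    · rintro ⟨_, ⟨t, rfl⟩, rfl⟩
      rw [hq]
      exact t.2
    · intro hy
      exact ⟨q ⟨y, hy⟩, ⟨_, rfl⟩, hq ⟨y, hy⟩⟩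
  have hQc : (⁅Q0, Q0⁆).map (valF rel) = Q := by
    rw [Subgroup.map_commutator, hQ0, hQ]
  have hv1 : ∀ s : S, ∃ v ∈ Q0, h s ^ m s * (u s)⁻¹ * v⁻¹ ∈
      Subgroup.normalClosure (Set.range fun i => FreeGroup.mk (rel i)) := by
    intro s
    have h1 := hQd' s
    rw [← hQ0] at h1
    obtain ⟨v, hv1, hv2⟩ := h1
    refine ⟨v, hv1, ?_⟩
    rw [← valF_eq_one_iff, map_mul, map_inv, hv2, mul_inv_cancel]
  choose v hvQ hvN using hv1
  have hv2 : ∀ t : T, ∃ c ∈ ⁅Q0, Q0⁆, q t * c⁻¹ ∈
      Subgroup.normalClosure (Set.range fun i => FreeGroup.mk (rel i)) := by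
    intro t
    have h1 : (t : Grp rel) ∈ Q := by
      rw [← hT]
      exact Subgroup.subset_closure t.2
    rw [← hQc] at h1
    obtain ⟨c, hc1, hc2⟩ := h1
    refine ⟨c, hc1, ?_⟩
    rw [← valF_eq_one_iff, map_mul, map_inv, hc2, hq, mul_inv_cancel]
  choose c hcQ hcN using hv2
  -- the conjugates
  obtain ⟨K, _, w, i, hK⟩ := exists_conjugates_finset (fun i => FreeGroup.mk (rel i))
    ((Finset.univ.image fun s : S => h s ^ m s * (u s)⁻¹ * (v s)⁻¹) ∪
      (Finset.univ.image fun t : T => q t * (c t)⁻¹)) (by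
      intro x hx
      rw [Finset.mem_union, Finset.mem_image, Finset.mem_image] at hx
      rcases hx with ⟨s, _, rfl⟩ | ⟨t, _, rfl⟩
      · exact hvN s
      · exact hcN t)
  have hK1 : ∀ s : S, h s ^ m s * (u s)⁻¹ * (v s)⁻¹ ∈
      Subgroup.closure (Set.range (rho (fun i => FreeGroup.mk (rel i)) w i)) := fun s =>
    hK _ (Finset.mem_union_left _ (Finset.mem_image_of_mem _ (Finset.mem_univ s)))
  have hK2 : ∀ t : T, q t * (c t)⁻¹ ∈
      Subgroup.closure (Set.range (rho (fun i => FreeGroup.mk (rel i)) w i)) := fun t =>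
    hK _ (Finset.mem_union_right _ (Finset.mem_image_of_mem _ (Finset.mem_univ t)))
  let Z : Finset (FreeGroup X) := (Finset.univ.image h) ∪ (Finset.univ.image q)
  have hkill : Kills (fun i => FreeGroup.mk (rel i)) w i Z := by
    intro H' hr hZ b hb
    let kc : Subgroup (FreeGroup X) := b.ker.map H'.subtype
    have hkc : ∀ y, y ∈ kc ↔ ∃ h : y ∈ H', b ⟨y, h⟩ = 1 := by
      intro y
      constructor
      · rintro ⟨y', hy', rfl⟩
        exact ⟨y'.2, hy'⟩
      · rintro ⟨h, hy⟩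
        exact ⟨⟨y, h⟩, hy, rfl⟩
    have hrk : Subgroup.closure (Set.range (rho (fun i => FreeGroup.mk (rel i)) w i)) ≤ kc := by
      apply (Subgroup.closure_le kc).mpr
      rintro _ ⟨k, rfl⟩
      exact (hkc _).mpr ⟨hr k, hb k⟩
    have hck : ∀ A : Subgroup (FreeGroup X), A ≤ H' → ⁅A, A⁆ ≤ kc := by
      intro A hA
      rw [Subgroup.commutator_le]
      intro g₁ h₁ g₂ h₂
      refine (hkc _).mpr ⟨?_, ?_⟩
      · rw [commutatorElement_def]
        exact H'.mul_mem (H'.mul_mem (H'.mul_mem (hA h₁) (hA h₂)) (H'.inv_mem (hA h₁)))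
          (H'.inv_mem (hA h₂))
      · have h3 : (⟨⁅g₁, g₂⁆, by
            rw [commutatorElement_def]
            exact H'.mul_mem (H'.mul_mem (H'.mul_mem (hA h₁) (hA h₂)) (H'.inv_mem (hA h₁)))
              (H'.inv_mem (hA h₂))⟩ : H') = ⁅(⟨g₁, hA h₁⟩ : H'), (⟨g₂, hA h₂⟩ : H')⁆ := rfl
        rw [h3, map_commutatorElement]
        exact commutatorElement_eq_one_iff_mul_comm.mpr (mul_comm _ _)
    have hqH : ∀ t : T, q t ∈ H' := fun t =>
      hZ _ (Finset.mem_union_right _ (Finset.mem_image_of_mem _ (Finset.mem_univ t)))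
    have hhH : ∀ s : S, h s ∈ H' := fun s =>
      hZ _ (Finset.mem_union_left _ (Finset.mem_image_of_mem _ (Finset.mem_univ s)))
    have hQ0H : Q0 ≤ H' := by
      apply (Subgroup.closure_le H').mpr
      rintro _ ⟨t, rfl⟩
      exact hqH t
    have hH0H : H0 ≤ H' := by
      apply (Subgroup.closure_le H').mpr
      rintro _ ⟨s, rfl⟩
      exact hhH s
    have hqk : ∀ t : T, q t ∈ kc := by
      intro t
      have h1 := kc.mul_mem (hrk (hK2 t)) (hck Q0 hQ0H (hcQ t))
      rwa [inv_mul_cancel_right] at h1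
    have hQ0k : Q0 ≤ kc := by
      apply (Subgroup.closure_le kc).mpr
      rintro _ ⟨t, rfl⟩
      exact hqk t
    have hhk : ∀ s : S, h s ∈ kc := by
      intro s
      have h1 := kc.mul_mem (hrk (hK1 s)) (hQ0k (hvQ s))
      rw [inv_mul_cancel_right] at h1
      have h2 := kc.mul_mem h1 (hck H0 hH0H (hu s))
      rw [inv_mul_cancel_right] at h2
      obtain ⟨h3, h4⟩ := (hkc _).mp h2
      refine (hkc _).mpr ⟨hhH s, ?_⟩
      have h5 : (b ⟨h s, hhH s⟩) ^ m s = 1 := by
        rw [← map_pow]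
        exact h4
      have h6 : m s • (b ⟨h s, hhH s⟩).toAdd = 0 := by
        rw [← toAdd_pow, h5, toAdd_one]
      rcases smul_eq_zero.mp h6 with h7 | h7
      · exact absurd h7 (hm s)
      · exact Multiplicative.toAdd.injective h7
    intro z hz
    rcases Finset.mem_union.mp hz with hz' | hz'
    · obtain ⟨s, _, rfl⟩ := Finset.mem_image.mp hz'
      exact ((hkc _).mp (hhk s)).2
    · obtain ⟨t, _, rfl⟩ := Finset.mem_image.mp hz'
      exact ((hkc _).mp (hqk t)).2
  obtain ⟨P, hP1, hP2, hP3⟩ := perfect_of_kills rel hE w i Z hkill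
  rw [← hS, Subgroup.closure_eq_bot_iff]
  intro s hs
  have h1 : valF rel (h ⟨s, hs⟩) ∈ perfRad (Grp rel) := le_perfRad hP1 hP2
    (hP3 _ (Finset.mem_union_left _ (Finset.mem_image_of_mem _ (Finset.mem_univ _))))
  rw [Set.mem_singleton_iff, ← (hπ1 _).mpr h1, hh]

end Pool.Agent.RelGapTower
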